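import Pool.Agent.H354.BG.Stm

/-!
# BG-OM (helper199 for helper354): codes and normal forms
-/

set_option autoImplicit false

namespace Pool.Agent.H199.BG.OM

open Pool.Agent.H354.BG
open Pool.Agent.H482R3.EA (W Syl Sys St Adm Act)

variable {D : Dat} {U : Finset (Fin D.r)} {b : Fin D.r}

/-- the last element of a code, or `s` -/
def lastO (s : Option (Sy D)) (code : List (Sy D)) : Option (Sy D) :=
  match code with
  | [] => s
  | a :: l => lastO (some a) l

theorem lastO_some (code : List (Sy D)) : ∀ a : Sy D,
    lastO (some a) code = (a :: code).getLast? := by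
  induction code with
  | nil =>
    intro a
    rfl
  | cons c l ih =>
    intro a
    show lastO (some c) l = _
    rw [ih c, List.getLast?_cons_cons]

theorem lastO_none (code : List (Sy D)) : lastO none code = code.getLast? := by
  cases code with
  | nil => rfl
  | cons a l => exact lastO_some l a

theorem lastO_mem (code : List (Sy D)) : ∀ s : Option (Sy D), okO D U b s →
    (∀ a ∈ code, okS D U b a) → okO D U b (lastO s code) := by
  induction code with
  | nil =>
    intro s hs _
    exact hs
  | cons a l ih =>
    intro s _ h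
    exact ih (some a) (h a (List.mem_cons_self ..)) fun c hc => h c (List.mem_cons_of_mem _ hc)

theorem VC_snoc (code : List (Sy D)) : ∀ (s : Option (Sy D)) (c : Sy D), VC D U b s code →
    AdmW D U b (lastO s code) c → VC D U b s (code ++ [c]) := by
  induction code with
  | nil =>
    intro s c _ h
    exact ⟨h, trivial⟩
  | cons a l ih =>
    intro s c h h'
    exact ⟨h.1, ih (some a) c h.2 h'⟩

theorem main1 (h1 : S_SEM1X) (hr : S_RUNX) (hs : S_SND) (hb : b ∉ U) (h : SysOK D U b)
    (A : Act (sysX D U b h)) (code : List (Sy D)) : ∀ (s : Option (Sy D)) (ω : A.Ω),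
    okO D U b s → A.st ω = stO D U b h s → VC D U b s code →
    (∀ a ∈ code, okS D U b a) ∧
    A.st (code.foldl (fun ω a => A.act ω (lyO D U b a).1 (lyO D U b a).2) ω) =
      stO D U b h (lastO s code) ∧
    runX D U b h A (code.flatMap (valS D U b)) (ω, 1) =
      (code.foldl (fun ω a => A.act ω (lyO D U b a).1 (lyO D U b a).2) ω, 1) := by
  induction code with
  | nil =>
    intro s ω _ hst _
    exact ⟨fun a ha => absurd ha List.not_mem_nil, hst, rfl⟩
  | cons a l ih =>
    intro s ω hok hst hv
    obtain ⟨hv1, hv2⟩ := hv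
    obtain ⟨ha, hsta⟩ := h1 D U b hb h A s a ω hok hv1 hst
    obtain ⟨i1, i2, i3⟩ := ih (some a) (A.act ω (lyO D U b a).1 (lyO D U b a).2) ha hsta hv2
    refine ⟨?_, i2, ?_⟩
    · intro c hc
      rcases List.mem_cons.1 hc with rfl | hc
      · exact ha
      · exact i1 c hc
    · rw [List.flatMap_cons, (hs D U b h A (valS D U b a) (ω, 1)).2.2,
        hr D U b hb h A a ω ha, i3]
      rfl

theorem t_OM (h1 : S_SEM1X) (h2 : S_SEM2X) (hr : S_RUNX) (hs : S_SND) : S_OM := by
  intro D U b hb h A
  have key : ∀ code, VC D U b none code → (∀ a ∈ code, okS D U b a) ∧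
      A.st (om D U b h A code) = stO D U b h code.getLast? ∧
      runX D U b h A (code.flatMap (valS D U b)) (A.one, 1) = (om D U b h A code, 1) := by
    intro code hv
    have hm := main1 h1 hr hs hb h A code none A.one trivial A.st_one hv
    rw [lastO_none] at hm
    exact hm
  refine ⟨key, A.gen (fun ω => ∃ code, VC D U b none code ∧ om D U b h A code = ω)
    ⟨[], trivial, rfl⟩ ?_⟩
  rintro ω l y ⟨code, hv, rfl⟩ had
  obtain ⟨k1, k2, -⟩ := key code hv
  have hok : okO D U b code.getLast? := by
    rw [← lastO_none]
    exact lastO_mem code none trivial k1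
  rw [k2] at had
  obtain ⟨c, hc1, hc2⟩ := h2 D U b hb h code.getLast? l y hok had
  refine ⟨code ++ [c], VC_snoc code none c hv (by rw [lastO_none]; exact hc1), ?_⟩
  rw [hc2 A]
  unfold om
  rw [List.foldl_append]
  rfl

end Pool.Agent.H199.BG.OM
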