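import Pool.Agent.H929.BG.Stm

/-!
# BG: the statements `S_PSmono`, `S_PSadd`, `S_PSnode`, `S_PSfin` (helper199 for helper929)
-/

set_option autoImplicit false

namespace Pool.Agent.H199.BG

open Finset Pool.Agent.TH3.IR Pool.Agent.Y55.Col Pool.Agent.H929.BW Pool.Agent.H929.BG

theorem t_PSmono : S_PSmono := by
  rintro n M M' b H H' hb hH hM ⟨ι, _, w, N, hw, hN, hMN⟩
  refine ⟨ι, inferInstance, w, N, ?_, hN, hM.trans hMN⟩
  exact Pool.Agent.H571.BW.good_mono hw (mul_le_mul_of_nonneg_left hH hb.le)

theorem t_PSadd : S_PSadd := by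
  intro n M M' a b H H' ha hb hH h h'
  obtain ⟨ι, _, w, N, hw, hN, hMN⟩ := t_PSmono n M M a H H' (by linarith) hH.le le_rfl h
  obtain ⟨κ, _, v, N', hv, hN', hMN'⟩ := h'
  refine ⟨ι ⊕ κ, inferInstance, Sum.elim w v, Sum.elim N N', ?_, ?_, ?_⟩
  · exact Pool.Agent.H929.BW.t_PIECES Pool.Agent.H349.BW.t_CUTS ι κ n w v a b H H' ha hb hH hw hv
  · rintro (i | i)
    · exact hN i
    · exact hN' i
  · rw [Fintype.sum_sum_type]
    exact add_le_add hMN hMN'

theorem t_PSnode : S_PSnode := by
  rintro n M b H hb ⟨ι, _, w, N, hw, hN, hMN⟩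
  exact ⟨ι, inferInstance, w, N, Pool.Agent.H571.BW.t_NODS ι n w b H 2 (le_refl _) hb hw, hN, hMN⟩

/-- the points of a finite type are treated one after another, with arbitrary multisets -/
theorem clusters' {ι : Type} [Fintype ι] (Q : Multiset ℕ → Prop) (R : ℕ → Multiset ℕ → Prop)
    (hQ : ∀ (μ : ℕ) (M M' : Multiset ℕ), Q (μ ::ₘ M) → R μ M' → Q (M' + M))
    (w : ι → ℕ) (N : ι → Multiset ℕ) (h : Q ((univ : Finset ι).val.map w))
    (hR : ∀ i, R (w i) (N i)) : Q (∑ i, N i) := by
  classical
  have key : ∀ A : Finset ι, Q ((∑ i ∈ A, N i) + ((univ : Finset ι) \ A).val.map w) := by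
    intro A
    induction A using Finset.induction_on with
    | empty => simpa using h
    | insert a A ha ih =>
      have h1 : ((univ : Finset ι) \ A).val.map w =
          w a ::ₘ ((univ : Finset ι) \ insert a A).val.map w := by
        have h2 : (univ : Finset ι) \ A = insert a ((univ : Finset ι) \ insert a A) := by
          ext x
          simp only [mem_sdiff, mem_univ, true_and, mem_insert, not_or]
          by_cases hx : x = a
          · simp [hx, ha]
          · simp [hx]
        rw [h2, insert_val_of_notMem (by simp), Multiset.map_cons]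
      rw [h1, Multiset.add_cons] at ih
      have h3 := hQ _ _ _ ih (hR a)
      rw [sum_insert ha, add_assoc]
      exact h3
  have h4 := key univ
  simpa using h4

/-- points may be removed -/
theorem remove_all {n D : ℕ} (L : Multiset ℕ) : ∀ M : Multiset ℕ, Ind n D (M + L) → Ind n D M := by
  induction L using Multiset.induction_on with
  | empty =>
    intro M h
    rwa [add_zero] at h
  | cons b L ih =>
    intro M h
    rw [Multiset.add_cons] at h
    exact ih M h.remove

theorem t_PSfin : S_PSfin := by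
  rintro n M d hn ⟨ι, _, w, N, hw, hN, hMN⟩
  have h1 := Pool.Agent.H571.BW.t_STARTS ι n w d hn hw
  have h2 := Pool.Agent.H738.BW.t_CONVS ι n d w h1
  have h3 := clusters' (Ind n (d + 1)) (Ind n) (fun μ M M' h1 h2 => h1.collision h2) w N h2 hN
  obtain ⟨L, hL⟩ := Multiset.le_iff_exists_add.1 hMN
  rw [hL] at h3
  exact remove_all L M h3

end Pool.Agent.H199.BG
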